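import Pool.Agent.Y315.FC.Int

/-!
# Uniform measures on finite invariant sets of rational points, mixtures, reflections
-/

set_option autoImplicit false

namespace Pool.Agent.Y315.FC

open MeasureTheory Complex
open scoped ENNReal

/-- the uniform probability measure on the points `a / N`, `a ∈ S` -/
noncomputable def orb {N : ℕ} [NeZero N] (S : Finset (ZMod N)) : Measure UnitAddCircle :=
  (S.card : ℝ≥0∞)⁻¹ • ∑ a ∈ S, Measure.dirac (ZMod.toAddCircle a)

theorem orb_prob {N : ℕ} [NeZero N] {S : Finset (ZMod N)} (hS : S.Nonempty) :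
    IsProbabilityMeasure (orb S) := by
  constructor
  unfold orb
  rw [Measure.smul_apply, Measure.finset_sum_apply]
  simp only [measure_univ, Finset.sum_const, nsmul_eq_mul, mul_one, smul_eq_mul]
  refine ENNReal.inv_mul_cancel ?_ (ENNReal.natCast_ne_top _)
  exact_mod_cast hS.card_pos.ne'

theorem orb_mp {N : ℕ} [NeZero N] {S : Finset (ZMod N)} (p : ℕ)
    (h : S.image (fun a => (p : ZMod N) * a) = S) :
    MeasurePreserving (fun x : UnitAddCircle => p • x) (orb S) (orb S) := by
  have hm : Measurable (fun x : UnitAddCircle => p • x) := (continuous_nsmul p).measurable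
  refine ⟨hm, ?_⟩
  ext E hE
  rw [Measure.map_apply hm hE]
  unfold orb
  rw [Measure.smul_apply, Measure.smul_apply, Measure.finset_sum_apply, Measure.finset_sum_apply]
  congr 1
  have hinj : Set.InjOn (fun a => (p : ZMod N) * a) (S : Set (ZMod N)) := by
    rw [← Finset.card_image_iff, h]
  have h1 : ∀ a : ZMod N, (Measure.dirac (ZMod.toAddCircle a) : Measure UnitAddCircle)
      ((fun x : UnitAddCircle => p • x) ⁻¹' E) =
      (Measure.dirac (ZMod.toAddCircle ((p : ZMod N) * a)) : Measure UnitAddCircle) E := by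
    intro a
    rw [Measure.dirac_apply' _ (hm hE), Measure.dirac_apply' _ hE]
    have : ZMod.toAddCircle ((p : ZMod N) * a) = p • ZMod.toAddCircle a := by
      rw [← nsmul_eq_mul, map_nsmul]
    rw [this]
    rfl
  calc ∑ a ∈ S, (Measure.dirac (ZMod.toAddCircle a) : Measure UnitAddCircle)
        ((fun x : UnitAddCircle => p • x) ⁻¹' E)
      = ∑ a ∈ S, (Measure.dirac (ZMod.toAddCircle ((p : ZMod N) * a)) :
          Measure UnitAddCircle) E := Finset.sum_congr rfl fun a _ => h1 a
    _ = ∑ b ∈ S.image (fun a => (p : ZMod N) * a), (Measure.dirac (ZMod.toAddCircle b) :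
          Measure UnitAddCircle) E := (Finset.sum_image (f := fun b =>
            (Measure.dirac (ZMod.toAddCircle b) : Measure UnitAddCircle) E) hinj).symm
    _ = _ := by rw [h]

theorem orb_co {N : ℕ} [NeZero N] (S : Finset (ZMod N)) :
    ∫ x, (fourier 1 x : ℂ) ∂(orb S) = (S.card : ℂ)⁻¹ * ∑ a ∈ S, ZMod.stdAddChar a := by
  unfold orb
  rw [integral_smul_measure, integral_finset_sum_measure]
  · simp only [integral_dirac]
    rw [ENNReal.toReal_inv, ENNReal.toReal_natCast, Complex.real_smul]
    push_cast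
    congr 1
    refine Finset.sum_congr rfl fun a _ => ?_
    rw [fourier_one, ZMod.stdAddChar_apply]
    rfl
  · intro i _
    exact int_c (map_continuous _)

theorem char_pow {N : ℕ} [NeZero N] (k : ℕ) :
    (ZMod.stdAddChar (k : ZMod N) : ℂ) = (ZMod.stdAddChar (1 : ZMod N) : ℂ) ^ k := by
  rw [← AddChar.map_nsmul_eq_pow]
  congr 1
  simp

theorem geom_zero {N : ℕ} [NeZero N] (hN : 1 < N) :
    ∑ k ∈ Finset.range N, (ZMod.stdAddChar (1 : ZMod N) : ℂ) ^ k = 0 := by
  set ζ : ℂ := ZMod.stdAddChar (1 : ZMod N) with hζ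
  have h1 : ζ ^ N = 1 := by
    rw [hζ, ← char_pow]
    simp
  have h2 : ζ ≠ 1 := by
    intro h
    have h3 : (ZMod.stdAddChar (1 : ZMod N) : ℂ) = ZMod.stdAddChar (0 : ZMod N) := by
      rw [AddChar.map_zero_eq_one]; exact h
    have h4 := ZMod.injective_stdAddChar h3
    haveI : Fact (1 < N) := ⟨hN⟩
    exact one_ne_zero h4
  have h5 := mul_neg_geom_sum ζ N
  rw [h1, sub_self] at h5
  rcases mul_eq_zero.mp h5 with h | h
  · exact absurd (sub_eq_zero.mp h).symm h2
  · exact h

/-- the reflection of a measure -/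
theorem neg_mp {μ : Measure UnitAddCircle} {p : ℕ}
    (h : MeasurePreserving (fun x : UnitAddCircle => p • x) μ μ) :
    MeasurePreserving (fun x : UnitAddCircle => p • x) (μ.map fun x => -x) (μ.map fun x => -x) := by
  have hn : Measurable (fun x : UnitAddCircle => -x) := continuous_neg.measurable
  refine ⟨h.measurable, ?_⟩
  rw [Measure.map_map h.measurable hn]
  have : ((fun x : UnitAddCircle => p • x) ∘ fun x => -x) =
      (fun x => -x) ∘ fun x : UnitAddCircle => p • x := by
    funext x
    simp
  rw [this, ← Measure.map_map hn h.measurable, h.map_eq]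

theorem neg_co (μ : Measure UnitAddCircle) :
    ∫ x, (fourier 1 x : ℂ) ∂(μ.map fun x => -x) =
      (starRingEnd ℂ) (∫ x, (fourier 1 x : ℂ) ∂μ) := by
  have hn : Measurable (fun x : UnitAddCircle => -x) := continuous_neg.measurable
  rw [integral_map hn.aemeasurable (map_continuous _).aestronglyMeasurable, ← integral_conj]
  refine integral_congr_ae (Filter.Eventually.of_forall fun x => ?_)
  simp only
  rw [← fourier_neg]
  simp only [fourier_apply]
  congr 2
  simp

end Pool.Agent.Y315.FC
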