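import Pool.Agent.Y315.FC.CertA
import Pool.Agent.Y315.FC.CertB
import Pool.Agent.Y315.FC.Orb

/-!
# The first Fourier coefficient of measures invariant under `×2` and `×3`
-/

set_option autoImplicit false

namespace Pool.Agent.Y315.FC

open MeasureTheory Complex

theorem ph_re (t : ℤ × ℤ) (c : ℂ) :
    (ph t * c).re = t.1 * c.re - t.2 * Real.sqrt 23 * c.im := by
  unfold ph
  simp only [Complex.mul_re, Complex.add_re, Complex.add_im, Complex.intCast_re,
    Complex.intCast_im, Complex.mul_im, Complex.ofReal_re, Complex.ofReal_im, Complex.I_re,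
    Complex.I_im]
  ring

theorem LA_pos : (0 : ℝ) < LA := by
  have : (0 : ℤ) < LA := by decide +kernel
  exact_mod_cast this

theorem LB_pos : (0 : ℝ) < LB := by
  have : (0 : ℤ) < LB := by decide +kernel
  exact_mod_cast this

theorem chkA' : chk PA (0, 22 * LA) 41 = true := by
  have h : ((0 : ℤ), 22 * LA) = (0, 22 * LA) := rfl
  exact chkA

theorem chkB' : chk PB (46 * LB, 9 * LB) 81 = true := chkB

theorem pA_eq : pA = 46 * LA := by decide +kernel

theorem pB_eq : pB = 23 * LB := by decide +kernel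

variable {μ : Measure UnitAddCircle} [IsProbabilityMeasure μ]

theorem im_le (h2 : MeasurePreserving (fun x : UnitAddCircle => 2 • x) μ μ)
    (h3 : MeasurePreserving (fun x : UnitAddCircle => 3 • x) μ μ) :
    (∫ x, (fourier 1 x : ℂ) ∂μ).im ≤ Real.sqrt 23 / 22 := by
  have h := ineq (W := 41) (by norm_num) (by decide +kernel) chkA' posA μ h2 h3
  rw [ph_re, pA_eq] at h
  have hc : co μ 1 = ∫ x, (fourier 1 x : ℂ) ∂μ := by
    unfold co
    simp
  rw [hc] at h
  set c := ∫ x, (fourier 1 x : ℂ) ∂μ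
  have hL := LA_pos
  have hs : Real.sqrt 23 * Real.sqrt 23 = 23 := Real.mul_self_sqrt (by norm_num)
  have hs0 : 0 < Real.sqrt 23 := Real.sqrt_pos.mpr (by norm_num)
  push_cast at h
  have h1 : 0 ≤ (LA : ℝ) * (46 - 44 * (Real.sqrt 23 * c.im)) := by
    calc 0 ≤ 46 * (LA : ℝ) + 2 * (0 * c.re - 22 * LA * Real.sqrt 23 * c.im) := h
      _ = _ := by ring
  have h4 : 0 ≤ 46 - 44 * (Real.sqrt 23 * c.im) := nonneg_of_mul_nonneg_right h1 hL
  have h5 : Real.sqrt 23 * c.im ≤ Real.sqrt 23 * (Real.sqrt 23 / 22) := by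
    have : Real.sqrt 23 * (Real.sqrt 23 / 22) = 23 / 22 := by
      rw [← mul_div_assoc, hs]
    rw [this]
    linarith
  exact le_of_mul_le_mul_left h5 hs0

theorem re_ge (h2 : MeasurePreserving (fun x : UnitAddCircle => 2 • x) μ μ)
    (h3 : MeasurePreserving (fun x : UnitAddCircle => 3 • x) μ μ) :
    -1 / 4 + 9 * Real.sqrt 23 / 46 * (∫ x, (fourier 1 x : ℂ) ∂μ).im ≤
      (∫ x, (fourier 1 x : ℂ) ∂μ).re := by
  have h := ineq (W := 81) (by norm_num) (by decide +kernel) chkB' posB μ h2 h3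
  rw [ph_re, pB_eq] at h
  have hc : co μ 1 = ∫ x, (fourier 1 x : ℂ) ∂μ := by
    unfold co
    simp
  rw [hc] at h
  set c := ∫ x, (fourier 1 x : ℂ) ∂μ
  have hL := LB_pos
  push_cast at h
  have h1 : 0 ≤ (LB : ℝ) * (23 + 92 * c.re - 18 * (Real.sqrt 23 * c.im)) := by
    calc 0 ≤ 23 * (LB : ℝ) + 2 * (46 * LB * c.re - 9 * LB * Real.sqrt 23 * c.im) := h
      _ = _ := by ring
  have h4 := nonneg_of_mul_nonneg_right h1 hL
  have e : 9 * Real.sqrt 23 / 46 * c.im = 9 * (Real.sqrt 23 * c.im) / 46 := by ring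
  rw [e]
  linarith

/-- Both inequalities for `μ` and its reflection. -/
theorem region (h2 : MeasurePreserving (fun x : UnitAddCircle => 2 • x) μ μ)
    (h3 : MeasurePreserving (fun x : UnitAddCircle => 3 • x) μ μ) :
    |(∫ x, (fourier 1 x : ℂ) ∂μ).im| ≤ Real.sqrt 23 / 22 ∧
    -1 / 4 + 9 * Real.sqrt 23 / 46 * |(∫ x, (fourier 1 x : ℂ) ∂μ).im| ≤
      (∫ x, (fourier 1 x : ℂ) ∂μ).re := by
  haveI : IsProbabilityMeasure (μ.map fun x : UnitAddCircle => -x) :=
    Measure.isProbabilityMeasure_map continuous_neg.measurable.aemeasurable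
  have a1 := im_le h2 h3
  have a2 := re_ge h2 h3
  have b1 := im_le (neg_mp h2) (neg_mp h3)
  have b2 := re_ge (neg_mp h2) (neg_mp h3)
  rw [neg_co] at b1 b2
  simp only [Complex.conj_im, Complex.conj_re] at b1 b2
  constructor
  · rw [abs_le]; constructor <;> linarith
  · rcases abs_cases (∫ x, (fourier 1 x : ℂ) ∂μ).im with ⟨h, -⟩ | ⟨h, -⟩ <;> rw [h] <;> linarith

/-- the orbit of `1 / 5` -/
theorem five : ∃ μ : Measure UnitAddCircle, IsProbabilityMeasure μ ∧
    MeasurePreserving (fun x : UnitAddCircle => 2 • x) μ μ ∧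
    MeasurePreserving (fun x : UnitAddCircle => 3 • x) μ μ ∧
    ∫ x, (fourier 1 x : ℂ) ∂μ = -1 / 4 := by
  refine ⟨orb (N := 5) {1, 2, 3, 4}, orb_prob (by decide), orb_mp 2 (by decide),
    orb_mp 3 (by decide), ?_⟩
  rw [orb_co]
  have hcard : (({1, 2, 3, 4} : Finset (ZMod 5)).card : ℂ) = 4 := by
    have : ({1, 2, 3, 4} : Finset (ZMod 5)).card = 4 := by decide
    rw [this]; norm_num
  rw [hcard]
  have hs : ∑ a ∈ ({1, 2, 3, 4} : Finset (ZMod 5)), (ZMod.stdAddChar a : ℂ) =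
      (ZMod.stdAddChar (1 : ZMod 5) : ℂ) + (ZMod.stdAddChar (1 : ZMod 5) : ℂ) ^ 2 +
      (ZMod.stdAddChar (1 : ZMod 5) : ℂ) ^ 3 + (ZMod.stdAddChar (1 : ZMod 5) : ℂ) ^ 4 := by
    rw [← char_pow, ← char_pow, ← char_pow]
    rw [Finset.sum_insert (by decide), Finset.sum_insert (by decide),
      Finset.sum_insert (by decide), Finset.sum_singleton]
    push_cast
    ring
  have hg := geom_zero (N := 5) (by norm_num)
  simp only [Finset.sum_range_succ, Finset.sum_range_zero, zero_add, pow_zero, pow_one] at hg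
  rw [hs]
  linear_combination (1 / 4) * hg

theorem qr_sum (ζ : ℂ) (h : ∑ k ∈ Finset.range 23, ζ ^ k = 0) :
    (2 * (ζ + ζ ^ 2 + ζ ^ 3 + ζ ^ 4 + ζ ^ 6 + ζ ^ 8 + ζ ^ 9 + ζ ^ 12 + ζ ^ 13 + ζ ^ 16 + ζ ^ 18) +
      1) ^ 2 = -23 := by
  simp only [Finset.sum_range_succ, Finset.sum_range_zero, zero_add, pow_zero, pow_one] at h
  linear_combination 4 * (6 - 5 * ζ + ζ ^ 2 + ζ ^ 3 + ζ ^ 4 + ζ ^ 9 + ζ ^ 10 - 2 * ζ ^ 11 +
    2 * ζ ^ 12 - ζ ^ 13 + ζ ^ 14) * h

theorem of_sq {w : ℂ} (h : (2 * w + 1) ^ 2 = -23) : w.re = -1 / 2 ∧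
    |w.im| = Real.sqrt 23 / 2 := by
  have h1 := congrArg Complex.re h
  have h2 := congrArg Complex.im h
  rw [sq] at h1 h2
  simp only [Complex.mul_re, Complex.add_re, Complex.mul_im, Complex.add_im, Complex.one_re,
    Complex.one_im, Complex.re_ofNat, Complex.im_ofNat, Complex.neg_re, Complex.neg_im] at h1 h2
  have h3 : (2 * w.re + 1) * w.im = 0 := by linarith
  have h4 : w.re = -1 / 2 := by
    rcases mul_eq_zero.mp h3 with h | h
    · linarith
    · rw [h] at h1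
      nlinarith [sq_nonneg (2 * w.re + 1)]
  refine ⟨h4, ?_⟩
  have h5 : (2 * |w.im|) ^ 2 = 23 := by
    rw [mul_pow, sq_abs]
    rw [h4] at h1
    nlinarith
  have h6 : 2 * |w.im| = Real.sqrt 23 := by
    rw [← h5, Real.sqrt_sq (by positivity)]
  linarith

/-- the orbit of `1 / 23` -/
theorem tw3 : ∃ μ : Measure UnitAddCircle, IsProbabilityMeasure μ ∧
    MeasurePreserving (fun x : UnitAddCircle => 2 • x) μ μ ∧
    MeasurePreserving (fun x : UnitAddCircle => 3 • x) μ μ ∧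
    (∫ x, (fourier 1 x : ℂ) ∂μ).re = -1 / 22 ∧
    |(∫ x, (fourier 1 x : ℂ) ∂μ).im| = Real.sqrt 23 / 22 := by
  refine ⟨orb (N := 23) {1, 2, 3, 4, 6, 8, 9, 12, 13, 16, 18}, orb_prob (by decide),
    orb_mp 2 (by decide), orb_mp 3 (by decide), ?_⟩
  rw [orb_co]
  have hcard : (({1, 2, 3, 4, 6, 8, 9, 12, 13, 16, 18} : Finset (ZMod 23)).card : ℂ) = 11 := by
    have : ({1, 2, 3, 4, 6, 8, 9, 12, 13, 16, 18} : Finset (ZMod 23)).card = 11 := by decide
    rw [this]; norm_num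
  rw [hcard]
  set ζ : ℂ := ZMod.stdAddChar (1 : ZMod 23) with hζ
  have hs : ∑ a ∈ ({1, 2, 3, 4, 6, 8, 9, 12, 13, 16, 18} : Finset (ZMod 23)),
      (ZMod.stdAddChar a : ℂ) = ζ + ζ ^ 2 + ζ ^ 3 + ζ ^ 4 + ζ ^ 6 + ζ ^ 8 + ζ ^ 9 + ζ ^ 12 +
        ζ ^ 13 + ζ ^ 16 + ζ ^ 18 := by
    rw [hζ]
    simp only [← char_pow]
    rw [Finset.sum_insert (by decide), Finset.sum_insert (by decide),
      Finset.sum_insert (by decide), Finset.sum_insert (by decide),
      Finset.sum_insert (by decide), Finset.sum_insert (by decide),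
      Finset.sum_insert (by decide), Finset.sum_insert (by decide),
      Finset.sum_insert (by decide), Finset.sum_insert (by decide), Finset.sum_singleton]
    push_cast
    ring
  have hg := geom_zero (N := 23) (by norm_num)
  rw [← hζ] at hg
  obtain ⟨h1, h2⟩ := of_sq (qr_sum ζ hg)
  rw [hs]
  set w := ζ + ζ ^ 2 + ζ ^ 3 + ζ ^ 4 + ζ ^ 6 + ζ ^ 8 + ζ ^ 9 + ζ ^ 12 +
        ζ ^ 13 + ζ ^ 16 + ζ ^ 18 with hw
  have e : (11 : ℂ)⁻¹ * w = ((11 : ℝ)⁻¹ : ℝ) * w := by push_cast; rfl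
  rw [e, Complex.re_ofReal_mul, Complex.im_ofReal_mul, h1, abs_mul, h2]
  constructor
  · norm_num
  · rw [abs_of_pos (by norm_num : (0 : ℝ) < 11⁻¹)]
    ring

theorem real_part (μ : Measure UnitAddCircle) [IsProbabilityMeasure μ] (θ : ℝ) :
    ∫ x, ((fourier 1 x : ℂ) * Complex.exp (-θ * Complex.I)).re ∂μ =
      Real.cos θ * (∫ x, (fourier 1 x : ℂ) ∂μ).re + Real.sin θ * (∫ x, (fourier 1 x : ℂ) ∂μ).im := by
  have h1 : ∫ x, ((fourier 1 x : ℂ) * Complex.exp (-θ * Complex.I)).re ∂μ =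
      (∫ x, (fourier 1 x : ℂ) * Complex.exp (-θ * Complex.I) ∂μ).re :=
    integral_re (int_c ((map_continuous _).mul continuous_const))
  rw [h1, integral_mul_const]
  have h2 : Complex.exp (-θ * Complex.I) = (Real.cos θ : ℂ) - (Real.sin θ : ℂ) * Complex.I := by
    have : (-(θ : ℂ)) * Complex.I = ((-θ : ℝ) : ℂ) * Complex.I := by push_cast; ring
    rw [this, Complex.exp_mul_I, ← Complex.ofReal_cos, ← Complex.ofReal_sin, Real.cos_neg,
      Real.sin_neg]
    push_cast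
    ring
  rw [h2]
  simp only [Complex.mul_re, Complex.sub_re, Complex.sub_im, Complex.ofReal_re,
    Complex.ofReal_im, Complex.I_re, Complex.I_im, Complex.mul_im]
  ring

/-- the main theorem -/
theorem main (θ : ℝ) (hθ : Real.cos θ ≤ 0) :
    IsGreatest {v : ℝ | ∃ μ : Measure UnitAddCircle, IsProbabilityMeasure μ ∧
      MeasurePreserving (fun x : UnitAddCircle => 2 • x) μ μ ∧
      MeasurePreserving (fun x : UnitAddCircle => 3 • x) μ μ ∧
      v = ∫ x, ((fourier 1 x : ℂ) * Complex.exp (-θ * Complex.I)).re ∂μ}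
      (max (-Real.cos θ / 4) ((Real.sqrt 23 * |Real.sin θ| - Real.cos θ) / 22)) := by
  have hs : Real.sqrt 23 * Real.sqrt 23 = 23 := Real.mul_self_sqrt (by norm_num)
  have hs0 : 0 < Real.sqrt 23 := Real.sqrt_pos.mpr (by norm_num)
  constructor
  · rcases le_total (-Real.cos θ / 4) ((Real.sqrt 23 * |Real.sin θ| - Real.cos θ) / 22) with h | h
    · rw [max_eq_right h]
      obtain ⟨μ, hμ, h2, h3, hre, him⟩ := tw3
      by_cases hsg : Real.sin θ * (∫ x, (fourier 1 x : ℂ) ∂μ).im =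
          |Real.sin θ| * |(∫ x, (fourier 1 x : ℂ) ∂μ).im|
      · refine ⟨μ, hμ, h2, h3, ?_⟩
        rw [real_part, hsg, hre, him]
        ring
      · haveI : IsProbabilityMeasure (μ.map fun x : UnitAddCircle => -x) :=
          Measure.isProbabilityMeasure_map continuous_neg.measurable.aemeasurable
        refine ⟨μ.map fun x : UnitAddCircle => -x, this, neg_mp h2, neg_mp h3, ?_⟩
        rw [real_part, neg_co, Complex.conj_re, Complex.conj_im]
        have h5 : Real.sin θ * -(∫ x, (fourier 1 x : ℂ) ∂μ).im =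
            |Real.sin θ| * |(∫ x, (fourier 1 x : ℂ) ∂μ).im| := by
          rw [← abs_mul] at hsg ⊢
          rcases abs_cases (Real.sin θ * (∫ x, (fourier 1 x : ℂ) ∂μ).im) with ⟨h, -⟩ | ⟨h, -⟩
          · exact absurd h.symm hsg
          · rw [h]; ring
        rw [h5, hre, him]
        ring
    · rw [max_eq_left h]
      obtain ⟨μ, hμ, h2, h3, hc⟩ := five
      refine ⟨μ, hμ, h2, h3, ?_⟩
      rw [real_part, hc]
      have e : (-1 / 4 : ℂ) = ((-1 / 4 : ℝ) : ℂ) := by push_cast; ring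
      rw [e, Complex.ofReal_re, Complex.ofReal_im]
      ring
  · rintro v ⟨μ, hμ, h2, h3, rfl⟩
    rw [real_part]
    obtain ⟨r1, r2⟩ := region h2 h3
    set c := ∫ x, (fourier 1 x : ℂ) ∂μ
    have h1 : Real.sin θ * c.im ≤ |Real.sin θ| * |c.im| := by
      rw [← abs_mul]; exact le_abs_self _
    have h4 : Real.cos θ * c.re ≤
        Real.cos θ * (-1 / 4 + 9 * Real.sqrt 23 / 46 * |c.im|) :=
      mul_le_mul_of_nonpos_left r2 hθ
    -- the bound is affine in `|c.im|`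
    have key : Real.cos θ * c.re + Real.sin θ * c.im ≤
        -Real.cos θ / 4 + (|Real.sin θ| + 9 * Real.sqrt 23 / 46 * Real.cos θ) * |c.im| := by
      have : Real.cos θ * (-1 / 4 + 9 * Real.sqrt 23 / 46 * |c.im|) + |Real.sin θ| * |c.im| =
        -Real.cos θ / 4 + (|Real.sin θ| + 9 * Real.sqrt 23 / 46 * Real.cos θ) * |c.im| := by ring
      linarith
    rcases le_total 0 (|Real.sin θ| + 9 * Real.sqrt 23 / 46 * Real.cos θ) with h | h
    · refine key.trans (le_trans ?_ (le_max_right _ _))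
      have h5 := mul_le_mul_of_nonneg_left r1 h
      have h6 : -Real.cos θ / 4 + (|Real.sin θ| + 9 * Real.sqrt 23 / 46 * Real.cos θ) *
          (Real.sqrt 23 / 22) = (Real.sqrt 23 * |Real.sin θ| - Real.cos θ) / 22 := by
        have : (|Real.sin θ| + 9 * Real.sqrt 23 / 46 * Real.cos θ) * (Real.sqrt 23 / 22) =
          |Real.sin θ| * Real.sqrt 23 / 22 + 9 * (Real.sqrt 23 * Real.sqrt 23) / (46 * 22) *
            Real.cos θ := by ring
        rw [this, hs]
        ring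
      linarith
    · refine key.trans (le_trans ?_ (le_max_left _ _))
      have h5 : (|Real.sin θ| + 9 * Real.sqrt 23 / 46 * Real.cos θ) * |c.im| ≤ 0 :=
        mul_nonpos_of_nonpos_of_nonneg h (abs_nonneg _)
      linarith

end Pool.Agent.Y315.FC
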